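import Pool.Agent.H65.Peb4

set_option autoImplicit false

namespace Pool.Agent.Results.MP_94c9ac_al.Tiny

/-- Every sequence of `|G|` elements of a finite group `G` has a nonempty subsequence whose terms
multiply to `1` in some order and whose weight `∑ 1 / |g_k|` is at most `1`. -/
theorem result :
    ∀ (G : Type) [Group G] [Fintype G] (g : Fin (Fintype.card G) → G),
      ∃ K : Finset (Fin (Fintype.card G)), K.Nonempty ∧
        (∃ L : List (Fin (Fintype.card G)), L.Nodup ∧ L.toFinset = K ∧ (L.map g).prod = 1) ∧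
        ∑ k ∈ K, (1 : ℚ) / (orderOf (g k) : ℚ) ≤ 1 := by
  intro G _ _ g
  obtain ⟨L, h1, h2, h3, h4⟩ := Pool.Agent.H65.Peb.tiny g (Fintype.card_fin _).ge
  refine ⟨L.toFinset, (List.toFinset_nonempty_iff L).2 h1, ⟨L, h2, rfl, h3⟩, ?_⟩
  rwa [List.sum_toFinset _ h2]

end Pool.Agent.Results.MP_94c9ac_al.Tiny
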